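import Pool.Agent.J4H1.JP.Asm

set_option autoImplicit false

/-!
# The Polya-Jensen criterion (helper6)
-/

namespace Pool.Agent.J4H6.JP

open Complex Filter Topology Set
open scoped ComplexConjugate
open Pool.Agent.J4H1.JP

/-! ### zeros of `F` and the Riemann hypothesis -/

theorem Xi_mul {z : ℂ} (h0 : 1 / 2 + z ≠ 0) (h1 : 1 / 2 + z ≠ 1) :
    2 * Xi z = (1 / 2 + z) * (1 / 2 + z - 1) * completedRiemannZeta (1 / 2 + z) := by
  rw [completedRiemannZeta_eq]
  unfold Xi
  have h2 : 1 - (1 / 2 + z) ≠ 0 := sub_ne_zero.2 (Ne.symm h1)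
  have e : z = (1 / 2 + z) - 1 / 2 := by ring
  generalize hs : (1 / 2 + z : ℂ) = s at *
  rw [e]
  field_simp
  ring

theorem mom_pos (k : ℕ) : 0 < mom k := by
  rw [mom_eq]
  exact J4H8.JP.Mo_pos k

theorem real_of_RH (h : RiemannHypothesis) : ∀ x : ℂ, F x = 0 → x.im = 0 := by
  intro x hx
  set z := x ^ (1 / 2 : ℂ) with hz
  have hXi : Xi z = 0 := hx
  have hre : |z.re| < 1 / 2 := by
    by_contra hc
    exact Xi_ne (not_lt.1 hc) hXi
  have hre' := abs_lt.1 hre
  have hsre : (1 / 2 + z : ℂ).re = 1 / 2 + z.re := by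
    rw [add_re]
    norm_num
  have h0 : (1 / 2 + z : ℂ) ≠ 0 := by
    intro h0
    rw [h0] at hsre
    simp only [zero_re] at hsre
    linarith
  have h1 : (1 / 2 + z : ℂ) ≠ 1 := by
    intro h1
    rw [h1] at hsre
    simp only [one_re] at hsre
    linarith
  have h2 := Xi_mul h0 h1
  rw [hXi, mul_zero] at h2
  have h3 : completedRiemannZeta (1 / 2 + z) = 0 := by
    rcases mul_eq_zero.1 h2.symm with h4 | h4
    · rcases mul_eq_zero.1 h4 with h5 | h5
      · exact absurd h5 h0
      · exact absurd (sub_eq_zero.1 h5) h1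
    · exact h4
  have h4 : riemannZeta (1 / 2 + z) = 0 := by
    rw [riemannZeta_def_of_ne_zero h0, h3, zero_div]
  have h5 := h (1 / 2 + z) h4 (by
    rintro ⟨n, hn⟩
    have := congrArg Complex.re hn
    rw [hsre] at this
    simp only [mul_re, neg_re, neg_im, add_re, add_im, natCast_re, natCast_im, one_re, one_im,
      re_ofNat, im_ofNat] at this
    have hn0 : (0 : ℝ) ≤ n := Nat.cast_nonneg n
    nlinarith) h1
  rw [hsre] at h5
  have hz0 : z.re = 0 := by linarith
  have hx2 : x = z ^ 2 := (sqrt_sq x).symm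
  rw [hx2, pow_two, mul_im, hz0]
  ring

theorem F_pos {x : ℝ} (hx : 0 ≤ x) : F x ≠ 0 := by
  intro h
  have h1 := hasSum_F (x : ℂ)
  rw [h] at h1
  have h2 : HasSum (fun k : ℕ => mom k / (2 * k).factorial * x ^ k) 0 := by
    have := Complex.hasSum_re h1
    simp only [zero_re] at this
    refine this.congr_fun (fun k => ?_)
    rw [← ofReal_pow, ← ofReal_mul, ofReal_re]
  have h3 := (hasSum_zero_iff_of_nonneg (fun k => by
    have := mom_pos k
    positivity)).1 h2
  have h4 := congrFun h3 0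
  simp only [mul_zero, Nat.factorial_zero, Nat.cast_one, div_one, pow_zero, mul_one,
    Pi.zero_apply] at h4
  exact (mom_pos 0).ne' h4

theorem RH_of_real (h : ∀ x : ℂ, F x = 0 → x.im = 0) : RiemannHypothesis := by
  intro s hs htriv hs1
  have hs0 : s ≠ 0 := by
    intro h0
    rw [h0, riemannZeta_zero] at hs
    norm_num at hs
  have hG : Gammaℝ s ≠ 0 := by
    intro hG
    rw [Gammaℝ_eq_zero_iff] at hG
    obtain ⟨n, hn⟩ := hG
    rcases Nat.eq_zero_or_pos n with hn0 | hn0
    · rw [hn0] at hn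
      apply hs0
      rw [hn]
      simp
    · apply htriv
      refine ⟨n - 1, ?_⟩
      rw [hn]
      have : ((n - 1 : ℕ) : ℂ) = (n : ℂ) - 1 := by
        rw [Nat.cast_sub hn0, Nat.cast_one]
      rw [this]
      ring
  have hL : completedRiemannZeta s = 0 := by
    rw [riemannZeta_def_of_ne_zero hs0, div_eq_zero_iff] at hs
    rcases hs with h1 | h1
    · exact h1
    · exact absurd h1 hG
  set z := s - 1 / 2 with hz
  have hsz : 1 / 2 + z = s := by rw [hz]; ring
  have hXi : Xi z = 0 := by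
    have h1 := Xi_mul (z := z) (by rw [hsz]; exact hs0) (by rw [hsz]; exact hs1)
    rw [hsz, hL, mul_zero] at h1
    have h2 : (2 : ℂ) ≠ 0 := two_ne_zero
    exact (mul_eq_zero.1 h1).resolve_left h2
  have hF : F (z ^ 2) = 0 := by rw [F_sq]; exact hXi
  have h1 := h _ hF
  rw [pow_two, mul_im] at h1
  have h2 : z.re * z.im = 0 := by linarith
  rcases mul_eq_zero.1 h2 with h3 | h3
  · have h4 : s.re = 1 / 2 + z.re := by
      rw [← hsz, add_re]
      norm_num
    rw [h4, h3, add_zero]
  · exfalso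
    have h4 : z = ((z.re : ℝ) : ℂ) := by
      apply Complex.ext <;> simp [h3]
    rw [h4, ← ofReal_pow] at hF
    exact F_pos (sq_nonneg _) hF

/-! ### the forward direction -/

theorem Fn_real (h : ∀ x : ℂ, F x = 0 → x.im = 0) (n : ℕ) : ∀ x : ℂ, Fn n x = 0 → x.im = 0 := by
  have hpos := J4H8.JP.t_pos t_momF
  induction n with
  | zero =>
    have : Fn 0 = F := by
      unfold Fn
      rw [iteratedDeriv_zero]
    rw [this]
    exact h
  | succ n ih =>
    have h1 : Fn (n + 1) = deriv (Fn n) := by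
      unfold Fn
      rw [iteratedDeriv_succ]
    rw [h1]
    refine J4H8.JP.t_gl (Fn n) (Ent_Fn J4H8.JP.t_der t_F n) ⟨0, ?_⟩ {x : ℂ | x.im = 0} ?_ ?_ ih
    · rw [← h1]
      exact Fn_zero_ne hpos (n + 1)
    · intro x hx y hy a b _ _ _
      simp only [Set.mem_ofPred_eq] at hx hy ⊢
      simp [hx, hy]
    · exact isClosed_eq Complex.continuous_im continuous_const

/-! ### the limit of the Jensen polynomials -/

/-- `C(d,j) j! / d^j` -/
noncomputable def cd (d j : ℕ) : ℝ := (d.descFactorial j : ℝ) / (d : ℝ) ^ j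

theorem cd_nonneg (d j : ℕ) : 0 ≤ cd d j := by
  unfold cd
  positivity

theorem cd_le_one (d j : ℕ) : cd d j ≤ 1 := by
  unfold cd
  apply div_le_one_of_le₀ _ (by positivity)
  exact_mod_cast Nat.descFactorial_le_pow d j

theorem cd_tendsto (j : ℕ) : Tendsto (fun d : ℕ => cd d j) atTop (𝓝 1) := by
  induction j with
  | zero =>
    have : (fun d : ℕ => cd d 0) = fun _ => (1 : ℝ) := by
      funext d
      simp [cd]
    rw [this]
    exact tendsto_const_nhds
  | succ j ih =>
    have h1 : Tendsto (fun d : ℕ => 1 - (j : ℝ) / d) atTop (𝓝 (1 - 0)) :=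
      tendsto_const_nhds.sub (tendsto_const_div_atTop_nhds_zero_nat (j : ℝ))
    have h2 := ih.mul h1
    rw [sub_zero, mul_one] at h2
    refine h2.congr' ?_
    filter_upwards [eventually_ge_atTop (j + 1)] with d hd
    have hd0 : (d : ℝ) ≠ 0 := by
      have : 0 < d := by omega
      positivity
    unfold cd
    rw [Nat.descFactorial_succ, pow_succ]
    push_cast [Nat.cast_sub (show j ≤ d by omega)]
    field_simp

/-- the coefficients of `F` -/
noncomputable def aF (k : ℕ) : ℝ := mom k / (2 * k).factorial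

theorem aF_pos (k : ℕ) : 0 < aF k := by
  unfold aF
  have := mom_pos k
  positivity

theorem aF_summable (R : ℝ) : Summable fun k => aF k * R ^ k := by
  have h1 := (hasSum_F (R : ℂ)).summable
  have h2 := (Complex.hasSum_re h1.hasSum).summable
  refine h2.congr (fun k => ?_)
  rw [← ofReal_pow, ← ofReal_mul, ofReal_re]
  rfl

theorem J_eq (d : ℕ) (x : ℂ) : Jf F d (x / d) = ∑' j, ((cd d j * aF j : ℝ) : ℂ) * x ^ j := by
  rw [tsum_eq_sum (s := Finset.range (d + 1))]
  · unfold Jf
    refine Finset.sum_congr rfl (fun j _ => ?_)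
    have h1 : iteratedDeriv j F 0 = ((j.factorial * aF j : ℝ) : ℂ) := Fn_zero j
    rw [h1, div_pow]
    unfold cd
    rw [Nat.descFactorial_eq_factorial_mul_choose]
    push_cast
    ring
  · intro j hj
    rw [Finset.mem_range, not_lt] at hj
    unfold cd
    rw [Nat.descFactorial_eq_zero_iff_lt.2 (by omega)]
    simp

theorem J_close (d : ℕ) {R : ℝ} {x : ℂ} (hx : ‖x‖ ≤ R) :
    ‖Jf F d (x / d) - F x‖ ≤ ∑' j, (1 - cd d j) * (aF j * R ^ j) := by
  have hR : 0 ≤ R := (norm_nonneg x).trans hx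
  have hF := hasSum_F x
  have hb : ∀ j, ‖((cd d j * aF j : ℝ) : ℂ) * x ^ j‖ ≤ aF j * R ^ j := by
    intro j
    rw [norm_mul, norm_pow, Complex.norm_real, Real.norm_eq_abs,
      abs_of_nonneg (mul_nonneg (cd_nonneg d j) (aF_pos j).le)]
    have h1 : cd d j * aF j ≤ aF j := by
      have := mul_le_mul_of_nonneg_right (cd_le_one d j) (aF_pos j).le
      linarith
    exact mul_le_mul h1 (pow_le_pow_left₀ (norm_nonneg _) hx j) (by positivity) (aF_pos j).le
  have hs1 : Summable fun j => ((cd d j * aF j : ℝ) : ℂ) * x ^ j :=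
    Summable.of_norm_bounded (aF_summable R) hb
  have hs2 : Summable fun j => (1 - cd d j) * (aF j * R ^ j) := by
    refine Summable.of_nonneg_of_le (fun j => ?_) (fun j => ?_) (aF_summable R)
    · have := cd_le_one d j
      have h2 := (aF_pos j).le
      exact mul_nonneg (by linarith) (by positivity)
    · have h1 := cd_nonneg d j
      have h2 : 0 ≤ aF j * R ^ j := mul_nonneg (aF_pos j).le (by positivity)
      nlinarith
  rw [J_eq, ← hF.tsum_eq, ← hs1.tsum_sub hF.summable]
  refine tsum_of_norm_bounded hs2.hasSum (fun j => ?_)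
  have e1 : ((cd d j * aF j : ℝ) : ℂ) * x ^ j - ((mom j / (2 * j).factorial : ℝ) : ℂ) * x ^ j =
      ((-(1 - cd d j) * aF j : ℝ) : ℂ) * x ^ j := by
    have : (mom j / (2 * j).factorial : ℝ) = aF j := rfl
    rw [this]
    push_cast
    ring
  rw [e1, norm_mul, norm_pow, Complex.norm_real, Real.norm_eq_abs, abs_mul, abs_neg,
    abs_of_nonneg (sub_nonneg.2 (cd_le_one d j)), abs_of_pos (aF_pos j), mul_assoc]
  refine mul_le_mul_of_nonneg_left ?_ (sub_nonneg.2 (cd_le_one d j))
  exact mul_le_mul_of_nonneg_left (pow_le_pow_left₀ (norm_nonneg _) hx j) (aF_pos j).le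

theorem J_err (R : ℝ) (hR : 0 ≤ R) :
    Tendsto (fun d : ℕ => ∑' j, (1 - cd d j) * (aF j * R ^ j)) atTop (𝓝 0) := by
  have h := tendsto_tsum_of_dominated_convergence (𝓕 := atTop)
    (f := fun (d j : ℕ) => (1 - cd d j) * (aF j * R ^ j)) (g := fun _ => (0 : ℝ))
    (bound := fun j => aF j * R ^ j) (aF_summable R) (fun j => ?_) ?_
  · simpa using h
  · have h1 := ((tendsto_const_nhds (x := (1 : ℝ))).sub (cd_tendsto j)).mul_const (aF j * R ^ j)
    rw [sub_self, zero_mul] at h1
    exact h1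
  · refine Eventually.of_forall (fun d j => ?_)
    have h0 : 0 ≤ aF j * R ^ j := mul_nonneg (aF_pos j).le (by positivity)
    rw [Real.norm_eq_abs, abs_of_nonneg (mul_nonneg (sub_nonneg.2 (cd_le_one d j)) h0)]
    have := cd_nonneg d j
    nlinarith

theorem Jf_diff (f : ℂ → ℂ) (d : ℕ) : Differentiable ℂ (fun x : ℂ => Jf f d (x / d)) := by
  unfold Jf
  fun_prop

theorem real_of_hyp (h : ∀ d : ℕ, 1 ≤ d → ∀ X : ℂ, Jf F d X = 0 → X.im = 0) :
    ∀ x : ℂ, F x = 0 → x.im = 0 := by
  intro x0 hx0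
  by_contra him
  -- isolated zero
  have han : AnalyticAt ℂ F x0 := diff_F.analyticAt x0
  have hiso : ∀ᶠ z in 𝓝[≠] x0, F z ≠ 0 := by
    rcases han.eventually_eq_zero_or_eventually_ne_zero with h1 | h1
    · exfalso
      have h2 : AnalyticOnNhd ℂ F Set.univ := fun z _ => diff_F.analyticAt z
      have h3 := h2.eqOn_zero_of_preconnected_of_eventuallyEq_zero isPreconnected_univ
        (Set.mem_univ x0) h1
      have h4 := h3 (Set.mem_univ (0 : ℂ))
      have h5 := F_pos (le_refl (0 : ℝ))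
      rw [ofReal_zero] at h5
      exact h5 h4
    · exact h1
  rw [eventually_nhdsWithin_iff, Metric.eventually_nhds_iff] at hiso
  obtain ⟨ε, hε, hiso⟩ := hiso
  set r := min (ε / 2) (|x0.im| / 2) with hr
  have hr0 : 0 < r := lt_min (by linarith) (by have := abs_pos.2 him; linarith)
  have hrε : r < ε := (min_le_left _ _).trans_lt (by linarith)
  have hrim : r < |x0.im| := (min_le_right _ _).trans_lt (by have := abs_pos.2 him; linarith)
  have hnonreal : ∀ z ∈ Metric.closedBall x0 r, z.im ≠ 0 := by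
    intro z hz h0
    have h1 : |(z - x0).im| ≤ ‖z - x0‖ := Complex.abs_im_le_norm _
    rw [Metric.mem_closedBall, dist_eq_norm] at hz
    rw [sub_im, h0, zero_sub, abs_neg] at h1
    linarith
  -- the minimum on the sphere
  have hsph : (Metric.sphere x0 r).Nonempty := (NormedSpace.sphere_nonempty).2 hr0.le
  obtain ⟨z1, hz1, hmin⟩ := (isCompact_sphere x0 r).exists_isMinOn hsph
    (diff_F.continuous.norm.continuousOn)
  set m := ‖F z1‖ with hm
  have hm0 : 0 < m := by
    rw [hm, norm_pos_iff]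
    apply hiso
    · rw [Metric.mem_sphere] at hz1
      rw [hz1]
      exact hrε
    · intro h1
      rw [Set.mem_singleton_iff] at h1
      rw [h1, Metric.mem_sphere, dist_self] at hz1
      exact hr0.ne hz1
  set R := ‖x0‖ + r with hR
  have hR0 : 0 ≤ R := by positivity
  have hev : ∀ᶠ d : ℕ in atTop, ∑' j, (1 - cd d j) * (aF j * R ^ j) < m / 2 :=
    (J_err R hR0).eventually_lt_const (by linarith)
  obtain ⟨d, hd, hd1⟩ := (hev.and (eventually_ge_atTop 1)).exists
  have hball : ∀ z ∈ Metric.closedBall x0 r, ‖z‖ ≤ R := by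
    intro z hz
    rw [Metric.mem_closedBall, dist_eq_norm] at hz
    calc ‖z‖ = ‖x0 + (z - x0)‖ := by congr 1; ring
      _ ≤ ‖x0‖ + ‖z - x0‖ := norm_add_le _ _
      _ ≤ R := by linarith
  have hdR : (d : ℝ) ≠ 0 := by
    have : 0 < d := hd1
    positivity
  have hne : ∀ z ∈ Metric.closedBall x0 r, Jf F d (z / d) ≠ 0 := by
    intro z hz h0
    have h1 := h d hd1 _ h0
    apply hnonreal z hz
    have h2 : (z / (d : ℂ)).im = z.im / d := by
      rw [show (d : ℂ) = ((d : ℝ) : ℂ) by simp, Complex.div_ofReal_im]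
    rw [h2, div_eq_zero_iff] at h1
    exact h1.resolve_right hdR
  have hclose : ∀ z ∈ Metric.closedBall x0 r, ‖Jf F d (z / d) - F z‖ < m / 2 :=
    fun z hz => (J_close d (hball z hz)).trans_lt hd
  have hmax := Complex.norm_le_of_forall_mem_frontier_norm_le (U := Metric.ball x0 r)
    (f := fun z => (Jf F d (z / d))⁻¹) (C := (m / 2)⁻¹) Metric.isBounded_ball ?_ ?_
    (subset_closure (Metric.mem_ball_self hr0))
  · have h1 := hclose x0 (Metric.mem_closedBall_self hr0.le)
    rw [hx0, sub_zero] at h1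
    rw [norm_inv] at hmax
    have h2 : 0 < ‖Jf F d (x0 / d)‖ :=
      norm_pos_iff.2 (hne x0 (Metric.mem_closedBall_self hr0.le))
    have h3 := (inv_le_inv₀ h2 (by linarith)).1 hmax
    linarith
  · refine DifferentiableOn.diffContOnCl (fun z hz => ?_)
    rw [closure_ball x0 hr0.ne'] at hz
    exact ((Jf_diff F d z).inv (hne z hz)).differentiableWithinAt
  · intro z hz
    rw [frontier_ball x0 hr0.ne'] at hz
    have hz' : z ∈ Metric.closedBall x0 r := Metric.sphere_subset_closedBall hz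
    rw [norm_inv]
    have h1 := hclose z hz'
    have h2 : m ≤ ‖F z‖ := hmin hz
    have h3 : m / 2 ≤ ‖Jf F d (z / d)‖ := by
      have h4 : ‖F z‖ ≤ ‖Jf F d (z / d)‖ + ‖Jf F d (z / d) - F z‖ := by
        have := norm_sub_le (Jf F d (z / d)) (Jf F d (z / d) - F z)
        rw [sub_sub_cancel] at this
        exact this
      linarith
    exact inv_anti₀ (by linarith) h3

/-- **The Polya-Jensen criterion.** -/
theorem t_rh : RiemannHypothesis ↔
    ∀ d n : ℕ, 1 ≤ d → ∀ X : ℂ, Jf (Fn n) d X = 0 → X.im = 0 := by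
  constructor
  · intro h d n hd
    have hreal := Fn_real (real_of_RH h) n
    exact t_sec J4H8.JP.t_had (Fn n) (Ent_Fn J4H8.JP.t_der t_F n)
      (Fn_zero_ne (J4H8.JP.t_pos t_momF) n) d hd (fun a ha haim => absurd (hreal a ha) haim)
  · intro h
    apply RH_of_real
    apply real_of_hyp
    intro d hd X hX
    refine h d 0 hd X ?_
    have : Fn 0 = F := by
      unfold Fn
      rw [iteratedDeriv_zero]
    rw [this]
    exact hX

/-- **RH is equivalent to the hyperbolicity of the Jensen polynomials with `n < (1/8+ε) log d + C`.** -/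
theorem t_rh_fin (ε C : ℝ) (hC : ∀ d n : ℕ, 1 ≤ d → (1 / 8 + ε) * Real.log d + C ≤ n →
    ∀ X : ℂ, Jf (Fn n) d X = 0 → X.im = 0) : RiemannHypothesis ↔
    ∀ d n : ℕ, 1 ≤ d → (n : ℝ) < (1 / 8 + ε) * Real.log d + C →
      ∀ X : ℂ, Jf (Fn n) d X = 0 → X.im = 0 := by
  rw [t_rh]
  constructor
  · intro h d n hd _
    exact h d n hd
  · intro h d n hd
    rcases le_or_gt ((1 / 8 + ε) * Real.log d + C) n with h1 | h1
    · exact hC d n hd h1
    · exact h d n hd h1

end Pool.Agent.J4H6.JP
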