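import Pool.Agent.J4H1.JP.Stm

set_option autoImplicit false

/-!
# The final assembly (helper6)
-/

namespace Pool.Agent.J4H6.JP

open Complex Polynomial Filter Topology
open scoped ComplexConjugate
open Pool.Agent.J4H1.JP

theorem Par_convex : Convex ℝ Par := by
  intro x hx y hy a b ha hb hab
  simp only [Par, Set.mem_ofPred_eq] at hx hy ⊢
  simp only [add_im, real_smul, mul_im, ofReal_re, ofReal_im, zero_mul, add_zero, add_re, mul_re,
    sub_zero]
  have hb' : b = 1 - a := by linarith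
  subst hb'
  nlinarith [mul_nonneg (mul_nonneg ha hb) (sq_nonneg (x.im - y.im)),
    mul_le_mul_of_nonneg_left hx ha, mul_le_mul_of_nonneg_left hy hb]

theorem Par_closed : IsClosed Par := by
  have h1 : Continuous fun x : ℂ => x.im ^ 2 := by fun_prop
  have h2 : Continuous fun x : ℂ => 1 / 4 - x.re := by fun_prop
  exact isClosed_le h1 h2

theorem Ent_Fn (hder : S_der) (hF : S_F) (n : ℕ) : Ent (Fn n) := by
  induction n with
  | zero =>
    have : Fn 0 = F := by
      unfold Fn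
      rw [iteratedDeriv_zero]
    rw [this]
    exact hF.1
  | succ n ih =>
    have : Fn (n + 1) = deriv (Fn n) := by
      unfold Fn
      rw [iteratedDeriv_succ]
    rw [this]
    exact hder _ ih

theorem Fn_zero_ne (hpos : S_pos) (n : ℕ) : Fn n 0 ≠ 0 := by
  intro h
  have h1 := (hpos n).1
  rw [h] at h1
  exact lt_irrefl _ h1

theorem Fn_Par (hgl : S_gl) (hder : S_der) (hF : S_F) (hpos : S_pos) (n : ℕ) :
    ∀ x, Fn n x = 0 → x ∈ Par := by
  induction n with
  | zero =>
    have : Fn 0 = F := by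
      unfold Fn
      rw [iteratedDeriv_zero]
    rw [this]
    exact hF.2.2
  | succ n ih =>
    have h1 : Fn (n + 1) = deriv (Fn n) := by
      unfold Fn
      rw [iteratedDeriv_succ]
    rw [h1]
    refine hgl (Fn n) (Ent_Fn hder hF n) ⟨0, ?_⟩ Par Par_convex Par_closed ih
    rw [← h1]
    exact Fn_zero_ne hpos (n + 1)

theorem t_fin (hsec : S_sec) (hlow : S_low) (hF : S_F) (hpos : S_pos) (hgl : S_gl)
    (hder : S_der) : S_fin := by
  intro ε hε
  have h8 : (0 : ℝ) < 1 + 8 * ε := by linarith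
  set ε' : ℝ := 64 * ε / (1 + 8 * ε) with hε'
  have hε'0 : 0 < ε' := div_pos (by linarith) h8
  have hk : 8 - ε' = 8 / (1 + 8 * ε) := by
    rw [hε']
    field_simp
    ring
  obtain ⟨n1, hn1⟩ := hlow ε' hε'0
  refine ⟨(n1 : ℝ) + (1 + 8 * ε), fun d n hd hn X hX => ?_⟩
  have hd1 : (1 : ℝ) ≤ d := by exact_mod_cast hd
  have hlog : 0 ≤ Real.log d := Real.log_nonneg hd1
  have hnn1 : n1 ≤ n := by
    have h1 : (n1 : ℝ) ≤ n := by
      have : 0 ≤ (1 / 8 + ε) * Real.log d := by positivity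
      linarith
    exact_mod_cast h1
  -- exp((8 - ε') n) ≥ d + 1
  have hexp : (d : ℝ) + 1 ≤ Real.exp ((8 - ε') * n) := by
    have h1 : Real.log (2 * d) ≤ (8 - ε') * n := by
      rw [Real.log_mul (by norm_num) (by linarith)]
      rw [hk, div_mul_eq_mul_div, le_div_iff₀ h8]
      have h2 : Real.log 2 ≤ 1 := by
        have := Real.log_two_lt_d9
        linarith
      have h3 : (0 : ℝ) ≤ n1 := Nat.cast_nonneg n1
      nlinarith
    calc (d : ℝ) + 1 ≤ 2 * d := by linarith
      _ = Real.exp (Real.log (2 * d)) := (Real.exp_log (by linarith)).symm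
      _ ≤ _ := Real.exp_le_exp.2 h1
  refine hsec (Fn n) (Ent_Fn hder hF n) (Fn_zero_ne hpos n) d hd ?_ X hX
  intro a ha haim
  have hbig : Real.exp ((8 - ε') * n) < ‖a‖ := by
    by_contra hcon
    exact haim (hn1 n hnn1 a ha (not_lt.1 hcon))
  have hnorm : (d : ℝ) + 1 ≤ ‖a‖ := hexp.trans hbig.le
  have hpar : a.im ^ 2 ≤ 1 / 4 - a.re := Fn_Par hgl hder hF hpos n a ha
  have hre : -a.re ≤ ‖a‖ := (neg_le_abs a.re).trans (Complex.abs_re_le_norm a)
  have h1 : a.im ^ 2 ≤ 1 / 4 + ‖a‖ := by linarith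
  have h2 : (d : ℝ) * a.im ^ 2 ≤ d * (1 / 4 + ‖a‖) :=
    mul_le_mul_of_nonneg_left h1 (by linarith)
  nlinarith

end Pool.Agent.J4H6.JP
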