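import Pool.Agent.J4H6.JP.Op
import Pool.Agent.J4H1.JP.Stm

set_option autoImplicit false

/-!
# The sector lemma and the sum over the zeros (helper6)
-/

namespace Pool.Agent.J4H6.JP

open Complex Polynomial Filter Topology
open scoped ComplexConjugate
open Pool.Agent.J4H1.JP

/-! ### limits of derivatives at `0` -/

theorem tlu_iter {P : ℕ → ℝ[X]} {f : ℂ → ℂ}
    (h : TendstoLocallyUniformly (fun (N : ℕ) (z : ℂ) => aeval z (P N)) f atTop) (j : ℕ) :
    TendstoLocallyUniformlyOn (fun (N : ℕ) (z : ℂ) => aeval z (derivative^[j] (P N)))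
      (iteratedDeriv j f) atTop Set.univ := by
  induction j with
  | zero =>
    simp only [Function.iterate_zero, id_eq, iteratedDeriv_zero]
    exact tendstoLocallyUniformlyOn_univ.2 h
  | succ j ih =>
    have h1 := TendstoLocallyUniformlyOn.deriv ih (Eventually.of_forall (fun N => by
      exact (Polynomial.differentiable_aeval _).differentiableOn)) isOpen_univ
    rw [iteratedDeriv_succ]
    have e1 : (deriv ∘ fun (N : ℕ) (z : ℂ) => aeval z (derivative^[j] (P N))) =
        fun (N : ℕ) (z : ℂ) => aeval z (derivative^[j + 1] (P N)) := by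
      funext N z
      rw [Function.comp_apply, Polynomial.deriv_aeval, Function.iterate_succ_apply']
    rw [e1] at h1
    exact h1

theorem tendsto_iter {P : ℕ → ℝ[X]} {f : ℂ → ℂ}
    (h : TendstoLocallyUniformly (fun (N : ℕ) (z : ℂ) => aeval z (P N)) f atTop) (j : ℕ) :
    Tendsto (fun N => aeval (0 : ℂ) (derivative^[j] (P N))) atTop (𝓝 (iteratedDeriv j f 0)) :=
  (tlu_iter h j).tendsto_at (Set.mem_univ 0)

theorem aeval_iter_zero (P : ℝ[X]) (j : ℕ) :
    aeval (0 : ℂ) (derivative^[j] P) = (j.factorial : ℂ) * (P.coeff j : ℂ) := by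
  have h1 : aeval (0 : ℂ) (derivative^[j] P) = ((coeff (derivative^[j] P) 0 : ℝ) : ℂ) := by
    have := aeval_ofReal (derivative^[j] P) 0
    rw [Complex.ofReal_zero] at this
    rw [this, coeff_zero_eq_eval_zero]
  rw [h1, coeff_iterate_derivative, zero_add, Nat.descFactorial_self]
  simp

/-! ### the lower bound for the Jensen polynomial of a polynomial -/

theorem norm_one_sub (r : ℝ) (z : ℂ) (hz : z.im ≠ 0) : |z.im| / ‖z‖ ≤ ‖1 - (r : ℂ) * z‖ := by
  have hz0 : z ≠ 0 := by
    intro h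
    rw [h] at hz
    exact hz rfl
  have hn : 0 < ‖z‖ := norm_pos_iff.2 hz0
  rw [div_le_iff₀ hn, ← norm_mul, ← abs_norm ((1 - (r : ℂ) * z) * z)]
  apply sq_le_sq.1
  rw [norm_mul, mul_pow, ← Complex.normSq_eq_norm_sq, ← Complex.normSq_eq_norm_sq, normSq_apply,
    normSq_apply]
  simp only [sub_re, one_re, mul_re, ofReal_re, ofReal_im, zero_mul, sub_zero, sub_im, one_im,
    mul_im, add_zero, zero_sub]
  nlinarith [sq_nonneg (z.re - r * (z.re * z.re + z.im * z.im))]

/-- the Jensen polynomial of a polynomial -/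
noncomputable def JPol (P : ℝ[X]) (d : ℕ) (X : ℂ) : ℂ :=
  ∑ j ∈ Finset.range (d + 1), (d.choose j : ℂ) * aeval (0 : ℂ) (derivative^[j] P) * X ^ j

theorem JP_eq (P : ℝ[X]) (d : ℕ) {z : ℂ} (hz : z ≠ 0) :
    JPol P d z = z ^ d * aeval z⁻¹ (Op P (X ^ d)) := by
  rw [Op_X_pow, map_sum, Finset.mul_sum, JPol]
  refine Finset.sum_congr rfl (fun j hj => ?_)
  have hj' : j ≤ d := by
    rw [Finset.mem_range] at hj
    omega
  rw [aeval_iter_zero, map_mul, aeval_C, map_pow, aeval_X]
  have h1 : z ^ d * (z⁻¹) ^ (d - j) = z ^ j := by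
    rw [inv_pow, ← div_eq_mul_inv, div_eq_iff (pow_ne_zero _ hz), ← pow_add]
    congr 1
    omega
  have h2 : (d.descFactorial j : ℂ) = (d.choose j : ℂ) * (j.factorial : ℂ) := by
    have := Nat.descFactorial_eq_factorial_mul_choose d j
    rw [this]
    push_cast
    ring
  calc (d.choose j : ℂ) * ((j.factorial : ℂ) * (P.coeff j : ℂ)) * z ^ j
      = ((P.coeff j : ℂ) * ((d.choose j : ℂ) * (j.factorial : ℂ))) * z ^ j := by ring
    _ = ((P.coeff j : ℂ) * (d.descFactorial j : ℂ)) * (z ^ d * (z⁻¹) ^ (d - j)) := by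
        rw [h1, h2]
    _ = z ^ d * ((algebraMap ℝ ℂ) (P.coeff j * (d.descFactorial j : ℝ)) * z⁻¹ ^ (d - j)) := by
        simp only [Complex.coe_algebraMap]
        push_cast
        ring

theorem JP_lower (P : ℝ[X]) (d : ℕ) (h0 : P.coeff 0 ≠ 0)
    (hP : ∀ a : ℂ, aeval a P = 0 → a.im ≠ 0 → (d : ℝ) * a.im ^ 2 ≤ ‖a‖ ^ 2)
    {z : ℂ} (hz : z.im ≠ 0) : ‖aeval (0 : ℂ) P‖ * (|z.im| / ‖z‖) ^ d ≤ ‖JPol P d z‖ := by
  have hz0 : z ≠ 0 := by
    intro h
    rw [h] at hz
    exact hz rfl
  obtain ⟨h1, h2⟩ := Op_RR d P.natDegree P le_rfl h0 hP (X ^ d) (RR_X_pow d) (natDegree_X_pow_le d)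
  set q := Op P (X ^ d) with hq
  have hcoef : q.coeff d = P.coeff 0 := by
    rw [hq, Op_X_pow, finsetSum_coeff, Finset.sum_eq_single 0]
    · simp
    · intro j hj hj0
      have hj' := Finset.mem_range.1 hj
      rw [coeff_C_mul, coeff_X_pow, if_neg (by omega), mul_zero]
    · intro h
      exact absurd (Finset.mem_range.2 (Nat.succ_pos d)) h
  have hdeg : q.natDegree = d := by
    refine le_antisymm h2 (le_natDegree_of_ne_zero ?_)
    rw [hcoef]
    exact h0
  have hlc : q.leadingCoeff = P.coeff 0 := by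
    rw [leadingCoeff, hdeg, hcoef]
  obtain ⟨r, hr⟩ := RR.rep d q hdeg h1
  have e1 : JPol P d z = (P.coeff 0 : ℂ) * ∏ i, (1 - (r i : ℂ) * z) := by
    rw [JP_eq P d hz0, ← hq, hr, hlc, map_mul, aeval_C, map_prod]
    have e2 : (z : ℂ) ^ d = ∏ _i : Fin d, z := by
      rw [Finset.prod_const, Finset.card_univ, Fintype.card_fin]
    rw [e2, mul_left_comm, ← Finset.prod_mul_distrib]
    congr 1
    refine Finset.prod_congr rfl (fun i _ => ?_)
    rw [map_sub, aeval_X, aeval_C, mul_sub, mul_inv_cancel₀ hz0, Complex.coe_algebraMap]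
    ring
  have e3 : aeval (0 : ℂ) P = (P.coeff 0 : ℂ) := by
    have := aeval_iter_zero P 0
    simpa using this
  rw [e1, e3, norm_mul, norm_prod]
  refine mul_le_mul_of_nonneg_left ?_ (norm_nonneg _)
  calc (|z.im| / ‖z‖) ^ d = ∏ _i : Fin d, (|z.im| / ‖z‖) := by
        rw [Finset.prod_const, Finset.card_univ, Fintype.card_fin]
    _ ≤ ∏ i, ‖1 - (r i : ℂ) * z‖ :=
        Finset.prod_le_prod (fun i _ => by positivity) (fun i _ => norm_one_sub (r i) z hz)

/-! ### the sector lemma -/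

theorem t_sec (hhad : S_had) : S_sec := by
  intro f hf hf0 d _ hz X hX
  by_contra hXim
  obtain ⟨P, hPne, hroot, -, hlim⟩ := hhad f hf ⟨0, hf0⟩
  have hX0 : X ≠ 0 := by
    intro h
    rw [h] at hXim
    exact hXim rfl
  -- bound for each N
  have hbd : ∀ N, ‖aeval (0 : ℂ) (P N)‖ * (|X.im| / ‖X‖) ^ d ≤ ‖JPol (P N) d X‖ := by
    intro N
    apply JP_lower
    · intro h0
      apply hf0
      apply hroot N
      have := aeval_iter_zero (P N) 0
      simp only [Function.iterate_zero, id_eq] at this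
      rw [this, h0]
      simp
    · intro a ha haim
      exact hz a (hroot N a ha) haim
    · exact hXim
  have hJ : Tendsto (fun N => JPol (P N) d X) atTop (𝓝 (Jf f d X)) := by
    unfold JPol Jf
    refine tendsto_finsetSum _ (fun j _ => ?_)
    exact ((tendsto_iter hlim j).const_mul _).mul_const _
  have h00 : Tendsto (fun N => aeval (0 : ℂ) (P N)) atTop (𝓝 (f 0)) := by
    have := tendsto_iter hlim 0
    simpa using this
  have hle : ‖f 0‖ * (|X.im| / ‖X‖) ^ d ≤ ‖Jf f d X‖ :=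
    le_of_tendsto_of_tendsto' (h00.norm.mul_const _) hJ.norm hbd
  rw [hX, norm_zero] at hle
  have hpos : 0 < ‖f 0‖ * (|X.im| / ‖X‖) ^ d :=
    mul_pos (norm_pos_iff.2 hf0) (pow_pos (div_pos (abs_pos.2 hXim) (norm_pos_iff.2 hX0)) d)
  exact absurd hle (not_le.2 hpos)

/-! ### the sum over the zeros -/

/-- for a real polynomial `P` with `P(0) ≠ 0` all of whose roots `a` have `Re (1/a²) ≥ 0` -/
theorem poly_sum (P : ℝ[X]) (h0 : aeval (0 : ℂ) P ≠ 0)
    (hP : ∀ a : ℂ, aeval a P = 0 → 0 ≤ (1 / a ^ 2).re) {a : ℂ} (ha : aeval a P = 0) :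
    (1 / a ^ 2).re ≤ ((aeval (0 : ℂ) (derivative P) / aeval (0 : ℂ) P) ^ 2 -
      aeval (0 : ℂ) (derivative (derivative P)) / aeval (0 : ℂ) P).re := by
  classical
  set Q : ℂ[X] := P.map (algebraMap ℝ ℂ) with hQ
  have hev : ∀ z : ℂ, aeval z P = eval z Q := by
    intro z
    rw [hQ, eval_map, aeval_def]
  have hev1 : ∀ z : ℂ, aeval z (derivative P) = eval z (derivative Q) := by
    intro z
    rw [hQ, derivative_map, eval_map, aeval_def]
  have hev2 : ∀ z : ℂ, aeval z (derivative (derivative P)) =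
      eval z (derivative (derivative Q)) := by
    intro z
    rw [hQ, derivative_map, derivative_map, eval_map, aeval_def]
  have hQ0 : Q ≠ 0 := by
    intro h
    apply h0
    rw [hev, h, eval_zero]
  have hsplit : Q = C Q.leadingCoeff * (Q.roots.map (fun b => X - C b)).prod :=
    (IsAlgClosed.splits Q).eq_prod_roots
  -- index the roots by Fin
  set L : List ℂ := Q.roots.toList with hL
  have hLQ : (L : Multiset ℂ) = Q.roots := by rw [hL]; exact Multiset.coe_toList _
  set r : Fin L.length → ℂ := fun i => L.get i with hr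
  have hprod : (Q.roots.map (fun b => X - C b)).prod = ∏ i, (X - C (r i)) := by
    rw [← hLQ, Multiset.map_coe, Multiset.prod_coe]
    exact (Fin.prod_univ_fun_getElem L (fun b => (X - C b : ℂ[X]))).symm
  have hmem : ∀ i, eval (r i) Q = 0 := by
    intro i
    have h1 : r i ∈ L := List.get_mem L i
    have h2 : r i ∈ Q.roots := by
      rw [← hLQ]
      exact h1
    exact (mem_roots hQ0).1 h2
  have hx : ∀ i, (0 : ℂ) ≠ r i := by
    intro i hi
    apply h0
    have h3 := hmem i
    rw [← hi] at h3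
    rw [hev]
    exact h3
  obtain ⟨g0, g1, g2⟩ := logder r 0 hx Finset.univ
  have hlc : Q.leadingCoeff ≠ 0 := leadingCoeff_ne_zero.2 hQ0
  have e0 : aeval (0 : ℂ) P = Q.leadingCoeff * eval 0 (∏ i, (X - C (r i))) := by
    rw [hev]
    conv_lhs => rw [hsplit, hprod]
    rw [eval_mul, eval_C]
  have e1 : aeval (0 : ℂ) (derivative P) =
      Q.leadingCoeff * eval 0 (derivative (∏ i, (X - C (r i)))) := by
    rw [hev1]
    conv_lhs => rw [hsplit, hprod]
    rw [derivative_C_mul, eval_mul, eval_C]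
  have e2 : aeval (0 : ℂ) (derivative (derivative P)) =
      Q.leadingCoeff * eval 0 (derivative (derivative (∏ i, (X - C (r i))))) := by
    rw [hev2]
    conv_lhs => rw [hsplit, hprod]
    rw [derivative_C_mul, derivative_C_mul, eval_mul, eval_C]
  have e3 : (aeval (0 : ℂ) (derivative P) / aeval (0 : ℂ) P) ^ 2 -
      aeval (0 : ℂ) (derivative (derivative P)) / aeval (0 : ℂ) P = ∑ i, 1 / (r i) ^ 2 := by
    rw [e0, e1, e2, g1, g2]
    set G := eval 0 (∏ i, (X - C (r i))) with hG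
    set U := ∑ i, (0 - r i)⁻¹ with hU
    have h5 : ∑ i, 1 / (r i) ^ 2 = ∑ i, ((0 - r i)⁻¹) ^ 2 := by
      refine Finset.sum_congr rfl (fun i _ => ?_)
      rw [zero_sub, inv_neg, neg_sq, inv_pow, one_div]
    rw [h5]
    field_simp
    ring
  rw [e3, Complex.re_sum]
  have ha' : a ∈ Q.roots := by
    rw [mem_roots hQ0, IsRoot.def, ← hev]
    exact ha
  rw [← hLQ] at ha'
  obtain ⟨i, hi⟩ := List.get_of_mem (Multiset.mem_coe.1 ha')
  have h6 : (1 / a ^ 2).re = (1 / (r i) ^ 2).re := by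
    rw [hr, ← hi]
  rw [h6]
  refine Finset.single_le_sum (f := fun i => (1 / (r i) ^ 2).re) (fun k _ => ?_)
    (Finset.mem_univ i)
  apply hP
  rw [hev]
  exact hmem k

theorem t_sum (hhad : S_had) : S_sum := by
  intro f hf hf0 hre a ha
  obtain ⟨P, hPne, hroot, hev, hlim⟩ := hhad f hf ⟨0, hf0⟩
  have h0 : Tendsto (fun N => aeval (0 : ℂ) (P N)) atTop (𝓝 (f 0)) := by
    have := tendsto_iter hlim 0
    simpa using this
  have h1 : Tendsto (fun N => aeval (0 : ℂ) (derivative (P N))) atTop (𝓝 (deriv f 0)) := by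
    have := tendsto_iter hlim 1
    rw [iteratedDeriv_one] at this
    simpa using this
  have h2 : Tendsto (fun N => aeval (0 : ℂ) (derivative (derivative (P N)))) atTop
      (𝓝 (deriv (deriv f) 0)) := by
    have := tendsto_iter hlim 2
    rw [iteratedDeriv_succ, iteratedDeriv_one] at this
    simpa using this
  have hlim2 : Tendsto (fun N => ((aeval (0 : ℂ) (derivative (P N)) / aeval (0 : ℂ) (P N)) ^ 2 -
      aeval (0 : ℂ) (derivative (derivative (P N))) / aeval (0 : ℂ) (P N)).re) atTop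
      (𝓝 ((deriv f 0 / f 0) ^ 2 - deriv (deriv f) 0 / f 0).re) :=
    (Complex.continuous_re.tendsto _).comp
      (((h1.div h0 hf0).pow 2).sub (h2.div h0 hf0))
  refine ge_of_tendsto hlim2 ?_
  filter_upwards [hev a ha] with N hN
  refine poly_sum (P N) ?_ ?_ hN
  · intro h
    exact hf0 (hroot N 0 h)
  · intro b hb
    exact hre b (hroot N b hb)

end Pool.Agent.J4H6.JP
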