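import Mathlib

set_option autoImplicit false

/-!
# Differential operators with zeros in a double sector preserve real-rootedness (helper6)

Key lemma: `q` real-rooted of degree `m ≤ d`, `a` not real with `d (Im a)² ≤ ‖a‖²`; then
`‖a‖² q - 2 (Re a) q' + q''` has real roots only.
-/

namespace Pool.Agent.J4H6.JP

open Complex Polynomial
open scoped ComplexConjugate

/-! ### logarithmic derivatives -/

theorem logder {ι : Type*} (r : ι → ℂ) (x : ℂ) (hx : ∀ i, x ≠ r i) (s : Finset ι) :
    eval x (∏ i ∈ s, (X - C (r i))) ≠ 0 ∧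
    eval x (derivative (∏ i ∈ s, (X - C (r i)))) =
      eval x (∏ i ∈ s, (X - C (r i))) * ∑ i ∈ s, (x - r i)⁻¹ ∧
    eval x (derivative (derivative (∏ i ∈ s, (X - C (r i))))) =
      eval x (∏ i ∈ s, (X - C (r i))) *
        ((∑ i ∈ s, (x - r i)⁻¹) ^ 2 - ∑ i ∈ s, ((x - r i)⁻¹) ^ 2) := by
  classical
  induction s using Finset.induction_on with
  | empty => simp
  | insert i s hi ih =>
    obtain ⟨h0, h1, h2⟩ := ih
    have hw : x - r i ≠ 0 := sub_ne_zero.2 (hx i)
    rw [Finset.prod_insert hi, Finset.sum_insert hi, Finset.sum_insert hi]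
    set G := ∏ i ∈ s, (X - C (r i)) with hG
    refine ⟨?_, ?_, ?_⟩
    · rw [eval_mul]
      refine mul_ne_zero ?_ h0
      simpa using hw
    · rw [derivative_mul, eval_add, eval_mul, eval_mul, eval_mul, h1]
      simp only [derivative_sub, derivative_X, derivative_C, sub_zero, eval_one, one_mul,
        eval_sub, eval_X, eval_C]
      field_simp
    · rw [derivative_mul, derivative_add, derivative_mul, derivative_mul]
      simp only [derivative_sub, derivative_X, derivative_C, sub_zero, derivative_one, zero_mul,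
        zero_add, one_mul, eval_add, eval_mul, eval_sub, eval_X, eval_C, h1, h2]
      field_simp
      ring

/-! ### the inequality -/

theorem keyineq {ι : Type*} (s : Finset ι) (u : ι → ℂ) (α β : ℝ) (hβ : β ≠ 0)
    (hm : (s.card : ℝ) * β ^ 2 ≤ α ^ 2 + β ^ 2) (σ : ℝ) (hσ : σ = 1 ∨ σ = -1)
    (hu : ∀ i ∈ s, 0 < σ * (u i).im)
    (h : ∑ i ∈ s, (u i) ^ 2 = (∑ i ∈ s, u i - α) ^ 2 + (β : ℂ) ^ 2) : False := by
  classical
  -- real and imaginary parts
  have hre : ∑ i ∈ s, ((u i).re ^ 2 - (u i).im ^ 2) =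
      (∑ i ∈ s, (u i).re - α) ^ 2 - (∑ i ∈ s, (u i).im) ^ 2 + β ^ 2 := by
    have := congrArg Complex.re h
    simp only [Complex.re_sum, Complex.add_re, pow_two, Complex.mul_re, Complex.sub_re,
      Complex.sub_im, Complex.im_sum, Complex.ofReal_re, Complex.ofReal_im, sub_zero,
      mul_zero] at this
    simp only [pow_two]
    rw [this]
  have him : ∑ i ∈ s, (u i).re * (u i).im = (∑ i ∈ s, (u i).re - α) * ∑ i ∈ s, (u i).im := by
    have := congrArg Complex.im h
    simp only [Complex.im_sum, Complex.add_im, pow_two, Complex.mul_im, Complex.sub_re,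
      Complex.sub_im, Complex.re_sum, Complex.ofReal_re, Complex.ofReal_im, sub_zero,
      mul_zero, zero_mul, add_zero] at this
    have e1 : ∑ i ∈ s, ((u i).re * (u i).im + (u i).im * (u i).re) =
        2 * ∑ i ∈ s, (u i).re * (u i).im := by
      rw [Finset.mul_sum]
      exact Finset.sum_congr rfl (fun i _ => by ring)
    rw [e1] at this
    linarith
  set p : ι → ℝ := fun i => (u i).re with hp
  set q : ι → ℝ := fun i => σ * (u i).im with hq
  have hσ2 : σ ^ 2 = 1 := by rcases hσ with h | h <;> rw [h] <;> norm_num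
  set P := ∑ i ∈ s, p i with hP
  set Q := ∑ i ∈ s, q i with hQ
  have hQ' : ∑ i ∈ s, (u i).im = σ * Q := by
    rw [hQ, Finset.mul_sum]
    refine Finset.sum_congr rfl (fun i _ => ?_)
    simp only [hq]
    rw [← mul_assoc, ← pow_two, hσ2, one_mul]
  have hre' : ∑ i ∈ s, p i ^ 2 - ∑ i ∈ s, q i ^ 2 = (P - α) ^ 2 - Q ^ 2 + β ^ 2 := by
    rw [← Finset.sum_sub_distrib]
    have e1 : ∀ i ∈ s, p i ^ 2 - q i ^ 2 = (u i).re ^ 2 - (u i).im ^ 2 := by
      intro i _
      simp only [hp, hq]
      rw [mul_pow, hσ2, one_mul]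
    rw [Finset.sum_congr rfl e1, hre, hQ', mul_pow, hσ2, one_mul]
  have him' : ∑ i ∈ s, p i * q i = (P - α) * Q := by
    have e1 : ∀ i ∈ s, p i * q i = σ * ((u i).re * (u i).im) := by
      intro i _
      simp only [hp, hq]
      ring
    rw [Finset.sum_congr rfl e1, ← Finset.mul_sum, him, hQ']
    calc σ * ((∑ i ∈ s, (u i).re - α) * (σ * Q)) = σ ^ 2 * ((∑ i ∈ s, (u i).re - α) * Q) := by
          ring
      _ = (P - α) * Q := by rw [hσ2, one_mul]
  set S2 := ∑ i ∈ s, q i ^ 2 with hS2
  set y := P - α with hy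
  set m : ℝ := (s.card : ℝ) with hmm
  -- T2 = sum of t_i^2
  set T2 := ∑ i ∈ s, (p i - y) ^ 2 with hT2
  have hT2' : T2 = ∑ i ∈ s, p i ^ 2 - 2 * y * P + m * y ^ 2 := by
    rw [hT2, hP, Finset.mul_sum, ← Finset.sum_sub_distrib, hmm, ← nsmul_eq_mul,
      ← Finset.sum_const, ← Finset.sum_add_distrib]
    exact Finset.sum_congr rfl (fun i _ => by ring)
  have htau : ∑ i ∈ s, (p i - y) = P - m * y := by
    rw [Finset.sum_sub_distrib, Finset.sum_const, nsmul_eq_mul]
  have horth : ∑ i ∈ s, (p i - y) * q i = 0 := by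
    have e1 : ∀ i ∈ s, (p i - y) * q i = p i * q i - y * q i := fun i _ => by ring
    rw [Finset.sum_congr rfl e1, Finset.sum_sub_distrib, him', ← Finset.mul_sum, sub_self]
  have hT20 : 0 ≤ T2 := Finset.sum_nonneg (fun i _ => sq_nonneg _)
  rcases Nat.lt_or_ge s.card 2 with hc | hc
  · -- card 0 or 1
    have hc' : s.card = 0 ∨ s.card = 1 := by omega
    rcases hc' with hc' | hc'
    · have hs : s = ∅ := Finset.card_eq_zero.1 hc'
      subst hs
      simp only [Finset.sum_empty] at hre
      have h1 : 0 < β ^ 2 := by positivity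
      nlinarith [sq_nonneg α]
    · obtain ⟨i, hi⟩ := Finset.card_eq_one.1 hc'
      subst hi
      simp only [Finset.sum_singleton] at hre him
      have hui := hu i (Finset.mem_singleton_self i)
      have hne : (u i).im ≠ 0 := by
        intro h0
        rw [h0, mul_zero] at hui
        exact lt_irrefl _ hui
      have hPi : P = (u i).re := by rw [hP, Finset.sum_singleton]
      have hyi : y = (u i).re - α := by rw [hy, hPi]
      rw [hyi] at hre him
      have h1 : α * (u i).im = 0 := by linarith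
      have h2 : α = 0 := by
        rcases mul_eq_zero.1 h1 with h | h
        · exact h
        · exact absurd h hne
      have h3 : 0 < β ^ 2 := by positivity
      rw [h2] at hre
      nlinarith
  · have hm2 : (2 : ℝ) ≤ m := by
      rw [hmm]
      exact_mod_cast hc
    -- S2 > 0 and Q^2 > S2
    obtain ⟨i, hi, j, hj, hij⟩ := Finset.one_lt_card.1 (show 1 < s.card by omega)
    have hq0 : ∀ k ∈ s, 0 < q k := hu
    have hS2pos : 0 < S2 := Finset.sum_pos (fun k hk => pow_pos (hq0 k hk) 2) ⟨i, hi⟩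
    have hQS : S2 < Q ^ 2 := by
      have e1 : Q ^ 2 = ∑ k ∈ s, q k * Q := by
        rw [← Finset.sum_mul, pow_two]
      rw [e1, hS2]
      refine Finset.sum_lt_sum (fun k hk => ?_) ⟨i, hi, ?_⟩
      · rw [pow_two]
        exact mul_le_mul_of_nonneg_left
          (Finset.single_le_sum (fun l hl => (hq0 l hl).le) hk) (hq0 k hk).le
      · rw [pow_two]
        refine mul_lt_mul_of_pos_left ?_ (hq0 i hi)
        have : ∑ k ∈ ({i, j} : Finset ι), q k ≤ Q := by
          refine Finset.sum_le_sum_of_subset_of_nonneg ?_ (fun l hl _ => (hq0 l hl).le)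
          intro l hl
          simp only [Finset.mem_insert, Finset.mem_singleton] at hl
          rcases hl with h | h <;> rw [h] <;> assumption
        rw [Finset.sum_pair hij] at this
        linarith [hq0 j hj]
    -- Cauchy-Schwarz
    have hCS : (P - m * y) ^ 2 * S2 ≤ T2 * (m * S2 - Q ^ 2) := by
      -- sum t_i (S2 - Q q_i) = tau S2
      have e1 : ∑ k ∈ s, (p k - y) * (S2 - Q * q k) = (P - m * y) * S2 := by
        have : ∀ k ∈ s, (p k - y) * (S2 - Q * q k) =
            (p k - y) * S2 - Q * ((p k - y) * q k) := fun k _ => by ring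
        rw [Finset.sum_congr rfl this, Finset.sum_sub_distrib, ← Finset.mul_sum, horth,
          mul_zero, sub_zero, ← Finset.sum_mul, htau]
      have e2 : ∑ k ∈ s, (S2 - Q * q k) ^ 2 = S2 * (m * S2 - Q ^ 2) := by
        have : ∀ k ∈ s, (S2 - Q * q k) ^ 2 =
            S2 ^ 2 - 2 * S2 * Q * q k + Q ^ 2 * q k ^ 2 := fun k _ => by ring
        have a1 : ∑ k ∈ s, 2 * S2 * Q * q k = 2 * S2 * Q * Q := (Finset.mul_sum _ _ _).symm
        have a2 : ∑ k ∈ s, Q ^ 2 * q k ^ 2 = Q ^ 2 * S2 := (Finset.mul_sum _ _ _).symm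
        rw [Finset.sum_congr rfl this, Finset.sum_add_distrib, Finset.sum_sub_distrib,
          Finset.sum_const, nsmul_eq_mul, a1, a2]
        ring
      have e3 := Finset.sum_mul_sq_le_sq_mul_sq s (fun k => p k - y) (fun k => S2 - Q * q k)
      rw [e1, e2] at e3
      have e4 : (P - m * y) ^ 2 * S2 * S2 ≤ T2 * (m * S2 - Q ^ 2) * S2 := by
        calc (P - m * y) ^ 2 * S2 * S2 = ((P - m * y) * S2) ^ 2 := by ring
          _ ≤ T2 * (S2 * (m * S2 - Q ^ 2)) := e3
          _ = _ := by ring
      exact le_of_mul_le_mul_right e4 hS2pos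
    -- identity
    have hid : (m - 1) * (T2 + Q ^ 2 - S2) = (P - m * y) ^ 2 - (α ^ 2 + β ^ 2 - m * β ^ 2) := by
      have h1 : ∑ i ∈ s, p i ^ 2 = S2 + y ^ 2 - Q ^ 2 + β ^ 2 := by linarith
      have h2 : P = y + α := by rw [hy]; ring
      rw [hT2', h1, h2]
      ring
    have h1 : (P - m * y) ^ 2 ≤ (m - 1) * T2 := by
      have h2 : T2 * (m * S2 - Q ^ 2) ≤ T2 * ((m - 1) * S2) := by
        refine mul_le_mul_of_nonneg_left ?_ hT20
        linarith
      have h3 : (P - m * y) ^ 2 * S2 ≤ (m - 1) * T2 * S2 := by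
        calc (P - m * y) ^ 2 * S2 ≤ T2 * ((m - 1) * S2) := hCS.trans h2
          _ = _ := by ring
      exact le_of_mul_le_mul_right h3 hS2pos
    have h2 : 0 < (m - 1) * (Q ^ 2 - S2) := by
      apply mul_pos <;> linarith
    nlinarith

end Pool.Agent.J4H6.JP
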