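import Pool.Agent.J4H6.JP.Alg

set_option autoImplicit false

/-!
# The operator `P(D)` on real-rooted polynomials (helper6)
-/

namespace Pool.Agent.J4H6.JP

open Complex Polynomial
open scoped ComplexConjugate

/-- real-rooted -/
def RR (q : ℝ[X]) : Prop := q ≠ 0 ∧ ∀ z : ℂ, aeval z q = 0 → z.im = 0

theorem RR.dvd {p q : ℝ[X]} (h : RR q) (hpq : p ∣ q) : RR p := by
  obtain ⟨g, rfl⟩ := hpq
  refine ⟨fun h0 => h.1 (by rw [h0, zero_mul]), fun z hz => h.2 z ?_⟩
  rw [map_mul, hz, zero_mul]

theorem aeval_ofReal (q : ℝ[X]) (x : ℝ) : aeval (x : ℂ) q = ((eval x q : ℝ) : ℂ) := by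
  have := Polynomial.aeval_algebraMap_apply ℂ x q
  simpa using this

theorem RR.rep : ∀ (n : ℕ) (q : ℝ[X]), q.natDegree = n → RR q →
    ∃ r : Fin n → ℝ, q = C q.leadingCoeff * ∏ i, (X - C (r i)) := by
  intro n
  induction n with
  | zero =>
    intro q hq h
    refine ⟨fun i => 0, ?_⟩
    rw [Finset.univ_eq_empty, Finset.prod_empty, mul_one]
    rw [leadingCoeff, hq]
    exact eq_C_of_natDegree_eq_zero hq
  | succ n ih =>
    intro q hq h
    have hdeg : 0 < q.degree := natDegree_pos_iff_degree_pos.1 (by omega)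
    obtain ⟨z, hz⟩ := IsAlgClosed.exists_aeval_eq_zero ℂ q hdeg.ne'
    have hz0 := h.2 z hz
    have hz' : z = ((z.re : ℝ) : ℂ) := by
      apply Complex.ext <;> simp [hz0]
    rw [hz', aeval_ofReal] at hz
    have hroot : IsRoot q z.re := by
      rw [IsRoot.def]
      exact_mod_cast hz
    obtain ⟨g, hg⟩ := dvd_iff_isRoot.2 hroot
    have hgRR : RR g := h.dvd ⟨X - C z.re, by rw [hg, mul_comm]⟩
    have hgdeg : g.natDegree = n := by
      have := hq
      rw [hg, natDegree_mul (X_sub_C_ne_zero _) hgRR.1, natDegree_X_sub_C] at this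
      omega
    obtain ⟨r, hr⟩ := ih g hgdeg hgRR
    refine ⟨Fin.cons z.re r, ?_⟩
    have hlc : q.leadingCoeff = g.leadingCoeff := by
      rw [hg, leadingCoeff_mul, leadingCoeff_X_sub_C, one_mul]
    rw [hlc, Fin.prod_univ_succ]
    simp only [Fin.cons_zero, Fin.cons_succ]
    conv_lhs => rw [hg, hr]
    ring

/-- values of a real-rooted polynomial and its derivatives at a nonreal point -/
theorem RR.vals {q : ℝ[X]} (h : RR q) {x : ℂ} (hx : x.im ≠ 0) :
    ∃ u : Fin q.natDegree → ℂ, (∀ i, 0 < (-(SignType.sign x.im : ℝ)) * (u i).im) ∧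
      aeval x q ≠ 0 ∧ aeval x (derivative q) = aeval x q * ∑ i, u i ∧
      aeval x (derivative (derivative q)) = aeval x q * ((∑ i, u i) ^ 2 - ∑ i, (u i) ^ 2) := by
  obtain ⟨r, hr⟩ := RR.rep q.natDegree q rfl h
  have hxr : ∀ i, x ≠ ((fun i => ((r i : ℝ) : ℂ)) i) := by
    intro i hi
    apply hx
    rw [hi]
    simp
  obtain ⟨h0, h1, h2⟩ := logder (fun i => ((r i : ℝ) : ℂ)) x hxr Finset.univ
  have hlc : q.leadingCoeff ≠ 0 := leadingCoeff_ne_zero.2 h.1
  have hmap : q.map (algebraMap ℝ ℂ) =
      C (q.leadingCoeff : ℂ) * ∏ i, (X - C ((r i : ℝ) : ℂ)) := by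
    conv_lhs => rw [hr]
    rw [Polynomial.map_mul, Polynomial.map_C, Polynomial.map_prod]
    simp
  have e0 : aeval x q = (q.leadingCoeff : ℂ) * eval x (∏ i, (X - C ((r i : ℝ) : ℂ))) := by
    rw [aeval_def, ← eval_map, hmap, eval_mul, eval_C]
  have e1 : aeval x (derivative q) =
      (q.leadingCoeff : ℂ) * eval x (derivative (∏ i, (X - C ((r i : ℝ) : ℂ)))) := by
    rw [aeval_def, ← eval_map, ← derivative_map, hmap, derivative_C_mul, eval_mul, eval_C]
  have e2 : aeval x (derivative (derivative q)) =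
      (q.leadingCoeff : ℂ) * eval x (derivative (derivative (∏ i, (X - C ((r i : ℝ) : ℂ))))) := by
    rw [aeval_def, ← eval_map, ← derivative_map, ← derivative_map, hmap, derivative_C_mul,
      derivative_C_mul, eval_mul, eval_C]
  refine ⟨fun i => (x - r i)⁻¹, ?_, ?_, ?_, ?_⟩
  · intro i
    have hne : x - (r i : ℂ) ≠ 0 := sub_ne_zero.2 (hxr i)
    have hns : 0 < normSq (x - r i) := normSq_pos.2 hne
    have him : (x - (r i : ℂ)).im = x.im := by simp
    show 0 < (-(SignType.sign x.im : ℝ)) * ((x - r i)⁻¹).im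
    rw [inv_im, him]
    have h3 : (-(SignType.sign x.im : ℝ)) * (-x.im / normSq (x - r i)) =
        (SignType.sign x.im : ℝ) * x.im / normSq (x - r i) := by ring
    rw [h3]
    apply div_pos _ hns
    rw [sign_mul_self]
    exact abs_pos.2 hx
  · rw [e0]
    exact mul_ne_zero (by exact_mod_cast hlc) h0
  · rw [e1, h1, e0]
    ring
  · rw [e2, h2, e0]
    ring

/-- real factor -/
theorem RR.step_real {q : ℝ[X]} (h : RR q) {a : ℝ} (ha : a ≠ 0) :
    RR (derivative q - C a * q) ∧ (derivative q - C a * q).natDegree ≤ q.natDegree := by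
  have hdeg : (derivative q - C a * q).natDegree ≤ q.natDegree := by
    refine (natDegree_sub_le _ _).trans (max_le ?_ ?_)
    · exact (natDegree_derivative_le q).trans (Nat.sub_le _ _)
    · exact natDegree_C_mul_le _ _
  refine ⟨⟨?_, ?_⟩, hdeg⟩
  · intro h0
    have h1 : coeff (derivative q - C a * q) q.natDegree = 0 := by rw [h0, coeff_zero]
    rw [coeff_sub, coeff_derivative, coeff_C_mul,
      coeff_eq_zero_of_natDegree_lt (Nat.lt_succ_self _), zero_mul, zero_sub, neg_eq_zero] at h1
    rcases mul_eq_zero.1 h1 with h2 | h2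
    · exact ha h2
    · exact (leadingCoeff_ne_zero.2 h.1) h2
  · intro z hz
    by_contra hx
    obtain ⟨u, hu, h0, h1, -⟩ := h.vals hx
    rw [map_sub, map_mul, aeval_C, h1] at hz
    have h3 : aeval z q * (∑ i, u i - (a : ℂ)) = 0 := by
      rw [← hz]
      simp only [Complex.coe_algebraMap]
      ring
    rcases mul_eq_zero.1 h3 with h4 | h4
    · exact h0 h4
    · have h5 : ∑ i, u i = (a : ℂ) := by linear_combination h4
      have h6 : ∑ i, (u i).im = 0 := by
        rw [← Complex.im_sum, h5, Complex.ofReal_im]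
      have h7 : ∑ i, (-(SignType.sign z.im : ℝ)) * (u i).im = 0 := by
        rw [← Finset.mul_sum, h6, mul_zero]
      rcases isEmpty_or_nonempty (Fin q.natDegree) with he | he
      · rw [Finset.univ_eq_empty, Finset.sum_empty] at h5
        exact ha (by exact_mod_cast h5.symm)
      · have h8 : 0 < ∑ i, (-(SignType.sign z.im : ℝ)) * (u i).im :=
          Finset.sum_pos (fun i _ => hu i) Finset.univ_nonempty
        exact h8.ne' h7

/-- pair of conjugate factors -/
theorem RR.step_pair {q : ℝ[X]} (h : RR q) {a : ℂ} (ha : a.im ≠ 0)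
    (hd : (q.natDegree : ℝ) * a.im ^ 2 ≤ ‖a‖ ^ 2) :
    RR (derivative (derivative q) - C (2 * a.re) * derivative q + C (‖a‖ ^ 2) * q) ∧
    (derivative (derivative q) - C (2 * a.re) * derivative q + C (‖a‖ ^ 2) * q).natDegree ≤
      q.natDegree := by
  have ha0 : a ≠ 0 := by
    intro h0
    rw [h0] at ha
    exact ha rfl
  have hna : ‖a‖ ^ 2 ≠ 0 := pow_ne_zero 2 (norm_ne_zero_iff.2 ha0)
  have hnsq : ‖a‖ ^ 2 = a.re ^ 2 + a.im ^ 2 := by
    rw [← Complex.normSq_eq_norm_sq, normSq_apply]
    ring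
  have hdeg : (derivative (derivative q) - C (2 * a.re) * derivative q +
      C (‖a‖ ^ 2) * q).natDegree ≤ q.natDegree := by
    have h1 : (derivative q).natDegree ≤ q.natDegree :=
      (natDegree_derivative_le q).trans (Nat.sub_le _ _)
    have h2 : (derivative (derivative q)).natDegree ≤ q.natDegree :=
      ((natDegree_derivative_le _).trans (Nat.sub_le _ _)).trans h1
    refine (natDegree_add_le _ _).trans (max_le ?_ ?_)
    · refine (natDegree_sub_le _ _).trans (max_le h2 ?_)
      exact (natDegree_C_mul_le _ _).trans h1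
    · exact natDegree_C_mul_le _ _
  refine ⟨⟨?_, ?_⟩, hdeg⟩
  · intro h0
    have h1 : coeff (derivative (derivative q) - C (2 * a.re) * derivative q +
      C (‖a‖ ^ 2) * q) q.natDegree = 0 := by rw [h0, coeff_zero]
    rw [coeff_add, coeff_sub, coeff_derivative, coeff_derivative, coeff_C_mul, coeff_derivative,
      coeff_C_mul, coeff_eq_zero_of_natDegree_lt (Nat.lt_succ_self _),
      coeff_eq_zero_of_natDegree_lt (Nat.lt_succ_of_lt (Nat.lt_succ_self _))] at h1
    simp only [zero_mul, mul_zero, sub_zero, zero_add] at h1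
    rcases mul_eq_zero.1 h1 with h2 | h2
    · exact hna h2
    · exact (leadingCoeff_ne_zero.2 h.1) h2
  · intro z hz
    by_contra hx
    obtain ⟨u, hu, h0, h1, h2⟩ := h.vals hx
    rw [map_add, map_sub, map_mul (aeval z) (C (2 * a.re)), map_mul (aeval z) (C (‖a‖ ^ 2)),
      aeval_C, aeval_C, h1, h2] at hz
    have h3 : aeval z q * ((∑ i, u i - (a.re : ℂ)) ^ 2 + (a.im : ℂ) ^ 2 - ∑ i, (u i) ^ 2) = 0 := by
      rw [← hz]
      simp only [Complex.coe_algebraMap]
      rw [hnsq]
      push_cast
      ring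
    rcases mul_eq_zero.1 h3 with h4 | h4
    · exact h0 h4
    · refine keyineq Finset.univ u a.re a.im ha ?_ (-(SignType.sign z.im : ℝ)) ?_
        (fun i _ => hu i) (by linear_combination -h4)
      · rw [Finset.card_univ, Fintype.card_fin, ← hnsq]
        exact hd
      · rcases lt_or_gt_of_ne hx with h5 | h5
        · left
          rw [sign_neg h5]
          simp
        · right
          rw [sign_pos h5]
          simp

/-- `P(D) q` -/
noncomputable def Op (P q : ℝ[X]) : ℝ[X] :=
  (aeval (R := ℝ) (A := Module.End ℝ ℝ[X]) (derivative : ℝ[X] →ₗ[ℝ] ℝ[X]) P) q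

theorem Op_mul (P Q q : ℝ[X]) : Op (P * Q) q = Op P (Op Q q) := by
  unfold Op
  rw [map_mul]
  rfl

theorem Op_C (c : ℝ) (q : ℝ[X]) : Op (C c) q = C c * q := by
  unfold Op
  rw [aeval_C, Module.algebraMap_end_apply, smul_eq_C_mul]

theorem Op_lin (a : ℝ) (q : ℝ[X]) : Op (X - C a) q = derivative q - C a * q := by
  unfold Op
  rw [map_sub, aeval_X, aeval_C, LinearMap.sub_apply, Module.algebraMap_end_apply, smul_eq_C_mul]

theorem Op_quad (b c : ℝ) (q : ℝ[X]) : Op (X ^ 2 - C b * X + C c) q =
    derivative (derivative q) - C b * derivative q + C c * q := by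
  unfold Op
  rw [map_add, map_sub, map_pow, map_mul, aeval_X, aeval_C, aeval_C, LinearMap.add_apply,
    LinearMap.sub_apply, Module.algebraMap_end_apply, smul_eq_C_mul, pow_two,
    Module.End.mul_apply, Module.End.mul_apply, Module.algebraMap_end_apply, smul_eq_C_mul]

/-- the operator `P(D)` preserves real-rootedness of polynomials of degree at most `d` -/
theorem Op_RR (d : ℕ) : ∀ (n : ℕ) (P : ℝ[X]), P.natDegree ≤ n → P.coeff 0 ≠ 0 →
    (∀ a : ℂ, aeval a P = 0 → a.im ≠ 0 → (d : ℝ) * a.im ^ 2 ≤ ‖a‖ ^ 2) →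
    ∀ q : ℝ[X], RR q → q.natDegree ≤ d → RR (Op P q) ∧ (Op P q).natDegree ≤ d := by
  intro n
  induction n using Nat.strong_induction_on with
  | _ n ih =>
    intro P hPn hP0 hP q hq hqd
    rcases Nat.eq_zero_or_pos P.natDegree with hn | hn
    · -- constant
      have hPC := eq_C_of_natDegree_eq_zero hn
      rw [hPC, Op_C]
      refine ⟨⟨mul_ne_zero (by simpa using hP0) hq.1, fun z hz => hq.2 z ?_⟩, ?_⟩
      · rw [map_mul, aeval_C] at hz
        rcases mul_eq_zero.1 hz with h | h
        · exfalso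
          apply hP0
          simpa using h
        · exact h
      · exact (natDegree_C_mul_le _ _).trans hqd
    · have hP00 : P ≠ 0 := by
        intro h0
        rw [h0] at hn
        simp at hn
      have hdeg : 0 < P.degree := natDegree_pos_iff_degree_pos.1 hn
      obtain ⟨a, ha⟩ := IsAlgClosed.exists_aeval_eq_zero ℂ P hdeg.ne'
      by_cases haim : a.im = 0
      · -- real root
        have ha' : a = ((a.re : ℝ) : ℂ) := by
          apply Complex.ext <;> simp [haim]
        rw [ha', aeval_ofReal] at ha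
        have hroot : IsRoot P a.re := by
          rw [IsRoot.def]
          exact_mod_cast ha
        obtain ⟨g, hg⟩ := dvd_iff_isRoot.2 hroot
        have hg0 : g ≠ 0 := by
          intro h0
          rw [h0, mul_zero] at hg
          exact hP00 hg
        have hgdeg : g.natDegree < n := by
          have h1 := hPn
          rw [hg, natDegree_mul (X_sub_C_ne_zero _) hg0, natDegree_X_sub_C] at h1
          omega
        have hc : P.coeff 0 = -a.re * g.coeff 0 := by
          rw [hg, mul_coeff_zero]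
          simp
        have hgc : g.coeff 0 ≠ 0 := by
          intro h0
          rw [h0, mul_zero] at hc
          exact hP0 hc
        have har : a.re ≠ 0 := by
          intro h0
          rw [h0, neg_zero, zero_mul] at hc
          exact hP0 hc
        have hgP : ∀ b : ℂ, aeval b g = 0 → b.im ≠ 0 → (d : ℝ) * b.im ^ 2 ≤ ‖b‖ ^ 2 := by
          intro b hb
          apply hP
          rw [hg, map_mul, hb, mul_zero]
        obtain ⟨h1, h2⟩ := ih g.natDegree hgdeg g le_rfl hgc hgP q hq hqd
        rw [hg, Op_mul, Op_lin]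
        obtain ⟨h3, h4⟩ := h1.step_real har
        exact ⟨h3, h4.trans h2⟩
      · obtain ⟨g, hg⟩ := P.quadratic_dvd_of_aeval_eq_zero_im_ne_zero ha haim
        have hg0 : g ≠ 0 := by
          intro h0
          rw [h0, mul_zero] at hg
          exact hP00 hg
        have hquad : (X ^ 2 - C (2 * a.re) * X + C (‖a‖ ^ 2) : ℝ[X]).natDegree = 2 := by
          compute_degree!
        have hquad0 : (X ^ 2 - C (2 * a.re) * X + C (‖a‖ ^ 2) : ℝ[X]) ≠ 0 := by
          intro h0
          rw [h0] at hquad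
          simp at hquad
        have hgdeg : g.natDegree < n := by
          have h1 := hPn
          rw [hg, natDegree_mul hquad0 hg0, hquad] at h1
          omega
        have hc : P.coeff 0 = ‖a‖ ^ 2 * g.coeff 0 := by
          rw [hg, mul_coeff_zero, coeff_add, coeff_C_zero, coeff_sub, mul_coeff_zero]
          simp
        have hgc : g.coeff 0 ≠ 0 := by
          intro h0
          rw [h0, mul_zero] at hc
          exact hP0 hc
        have hgP : ∀ b : ℂ, aeval b g = 0 → b.im ≠ 0 → (d : ℝ) * b.im ^ 2 ≤ ‖b‖ ^ 2 := by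
          intro b hb
          apply hP
          rw [hg, map_mul, hb, mul_zero]
        obtain ⟨h1, h2⟩ := ih g.natDegree hgdeg g le_rfl hgc hgP q hq hqd
        rw [hg, Op_mul, Op_quad]
        have h5 : ((Op g q).natDegree : ℝ) * a.im ^ 2 ≤ ‖a‖ ^ 2 := by
          refine le_trans ?_ (hP a ha haim)
          refine mul_le_mul_of_nonneg_right ?_ (sq_nonneg _)
          exact_mod_cast h2
        obtain ⟨h3, h4⟩ := h1.step_pair haim h5
        exact ⟨h3, h4.trans h2⟩

theorem RR_X_pow (d : ℕ) : RR (X ^ d) := by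
  refine ⟨pow_ne_zero _ X_ne_zero, fun z hz => ?_⟩
  rw [map_pow, aeval_X] at hz
  have : z = 0 := by
    rcases Nat.eq_zero_or_pos d with h | h
    · rw [h, pow_zero] at hz
      exact absurd hz one_ne_zero
    · exact pow_eq_zero_iff (by omega) |>.1 hz
  rw [this]
  rfl

theorem derivative_pow_apply (k : ℕ) (q : ℝ[X]) :
    ((derivative : ℝ[X] →ₗ[ℝ] ℝ[X]) ^ k : Module.End ℝ ℝ[X]) q = derivative^[k] q := by
  rw [Module.End.pow_apply]

theorem Op_X_pow (P : ℝ[X]) (d : ℕ) : Op P (X ^ d) =
    ∑ j ∈ Finset.range (d + 1), C (P.coeff j * (d.descFactorial j : ℝ)) * X ^ (d - j) := by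
  unfold Op
  rw [aeval_eq_sum_range' (n := P.natDegree + 1 + (d + 1)) (by omega), LinearMap.sum_apply]
  have h1 : ∀ j ∈ Finset.range (P.natDegree + 1 + (d + 1)),
      (P.coeff j • ((derivative : ℝ[X] →ₗ[ℝ] ℝ[X]) ^ j : Module.End ℝ ℝ[X])) (X ^ d) =
      C (P.coeff j * (d.descFactorial j : ℝ)) * X ^ (d - j) := by
    intro j _
    rw [LinearMap.smul_apply, derivative_pow_apply, iterate_derivative_X_pow_eq_C_mul,
      smul_eq_C_mul, ← mul_assoc, ← C_mul]
  rw [Finset.sum_congr rfl h1]
  symm
  apply Finset.sum_subset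
  · intro j hj
    rw [Finset.mem_range] at hj ⊢
    omega
  · intro j _ hj
    rw [Finset.mem_range, not_lt] at hj
    rw [Nat.descFactorial_eq_zero_iff_lt.2 (by omega)]
    simp

end Pool.Agent.J4H6.JP
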